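import Pool.Agent.Q44.Appr
import Pool.Agent.Results.MP_5317dd_nt.SharpPowerSaving
import Pool.Agent.Q229.RR.Dyadic

/-!
# Wiggin's maps `F_D`: all orbits of starting points given by continued fractions descend

For every `D ≥ 2` there is `c > 1 - H / log D`, `H` the `D`-ary entropy at `log D / log (D + 1)`, such that for all
`0 < β < 1`, with `s = 1 - β c` (or `0`, if this is negative): for all irrational `α` outside a set of Hausdorff
dimension at most `(1 + s) / 2`, in particular for almost every real number, and all integers `(u, v) ≠ (0, 0)`, the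
orbit of `m = |u p + v q|` under `F_D` contains a number `≤ m ^ β`, for all but finitely many convergents `p / q` of
the continued fraction of `α`.  The same for the approximations of other qualities, for the points of `ℝ ^ d`, and
for the values of polynomials at the denominator and the numerators.
-/

set_option autoImplicit false

namespace Pool.Agent.Results.MP_5317dd_nt.GoodApproximations

open Pool.Agent.Q44.CF (AtApproximations at_of)

/-- Wiggin's map `F_D`. -/
def F (D x : ℕ) : ℕ :=
  if x % D = 0 then x / D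
  else if x % D = D - 1 then (D + 1) * x + 1
  else (D + 1) * x - x % D

/-- **Theorem.** For every `D ≥ 2` there is `c > 1 - H / log D` such that for all `0 < β < 1` all starting points
`m` given by good rational approximations (`AtApproximations`, with the exponent `1 - β c`, or `0` if this is negative)
have an iterate `F_D^k (m) ≤ m ^ β`. -/
theorem result (D : ℕ) (hD : 2 ≤ D) :
    ∃ c : ℝ, 0 < c ∧ 1 - Real.qaryEntropy D (Real.log D / Real.log (D + 1)) / Real.log D < c ∧
      ∀ β : ℝ, 0 < β → β < 1 → AtApproximations (max (1 - β * c) 0)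
        (fun m : ℕ => ∃ k : ℕ, (((F D)^[k] m : ℕ) : ℝ) ≤ (m : ℝ) ^ β) := by
  have hF : F = SharpPowerSaving.F := rfl
  obtain ⟨c, hc, hcH, C, hC, h⟩ := SharpPowerSaving.result D hD
  refine ⟨c, hc, hcH, fun β hβ hβ1 => ?_⟩
  have hβc : 0 < β * c := mul_pos hβ hc
  refine at_of (B := fun (m : ℕ) =>
    ∀ k : ℕ, (m : ℝ) ^ β < (((F D)^[k] m : ℕ) : ℝ)) (le_max_right _ _) ?_ ?_
  · refine Pool.Agent.Q21.DW.PS.mono (s := max (1 - β * c) 0) (B := fun m : ℕ =>
      ∀ k : ℕ, (m : ℝ) ^ β < (((F D)^[k] m : ℕ) : ℝ)) ?_ le_rfl (fun _ h => h)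
    refine Pool.Agent.Q229.RR.ps_dyadic _ _ (le_max_right _ _) ?_
    intro ε hε
    refine ⟨C * 2 ^ (β * c), fun X hX => ?_⟩
    have hX1 : (1 : ℝ) ≤ X := by exact_mod_cast hX
    have hX0 : (0 : ℝ) < X := by linarith
    have hy : ∀ n : ℕ, X < 2 * n → (X / 2 : ℝ) ^ β ≤ (n : ℝ) ^ β := by
      intro n hn
      refine Real.rpow_le_rpow (by positivity) ?_ hβ.le
      have : (X : ℝ) < 2 * n := by exact_mod_cast hn
      linarith
    -- the orbit stays above `(X / 2) ^ β`
    by_cases h1 : (1 : ℝ) ≤ (X / 2 : ℝ) ^ β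
    · have hsub : {n : ℕ | X < 2 * n ∧ n ≤ X ∧ ∀ k : ℕ, (n : ℝ) ^ β < (((F D)^[k] n : ℕ) : ℝ)} ⊆
          {n : ℕ | 1 ≤ n ∧ (n : ℝ) ≤ X ∧ ∀ k : ℕ, (X / 2 : ℝ) ^ β < (((SharpPowerSaving.F D)^[k] n : ℕ) : ℝ)} := by
        rintro n ⟨hn1, hn2, hn3⟩
        exact ⟨by omega, by exact_mod_cast hn2, fun k => lt_of_le_of_lt (hy n hn1) (hn3 k)⟩
      have hfin2 : {n : ℕ | 1 ≤ n ∧ (n : ℝ) ≤ X ∧
          ∀ k : ℕ, (X / 2 : ℝ) ^ β < (((SharpPowerSaving.F D)^[k] n : ℕ) : ℝ)}.Finite :=
        (Set.finite_le_nat X).subset fun n hn => by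
          have := hn.2.1
          exact_mod_cast this
      have h2 := (Nat.cast_le (α := ℝ)).2 (Set.ncard_le_ncard hsub hfin2)
      refine h2.trans ((h X ((X / 2 : ℝ) ^ β) hX1 h1).trans ?_)
      have h3 : C * X / ((X / 2 : ℝ) ^ β) ^ c = C * 2 ^ (β * c) * (X : ℝ) ^ (1 - β * c) := by
        rw [← Real.rpow_mul (by positivity), Real.div_rpow hX0.le (by norm_num), Real.rpow_sub hX0,
          Real.rpow_one]
        have h4 : (0 : ℝ) < (X : ℝ) ^ (β * c) := by positivity
        have h5 : (0 : ℝ) < (2 : ℝ) ^ (β * c) := by positivity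
        field_simp
      rw [h3]
      refine mul_le_mul_of_nonneg_left (Real.rpow_le_rpow_of_exponent_le hX1 ?_) (by positivity)
      linarith [le_max_left (1 - β * c) 0]
    · have hX2 : X < 2 := by
        by_contra hcon
        apply h1
        have : (2 : ℝ) ≤ X := by
          have : 2 ≤ X := by omega
          exact_mod_cast this
        exact Real.one_le_rpow (by linarith) hβ.le
      have hX1' : X = 1 := by omega
      subst hX1'
      have hempty : {n : ℕ | 1 < 2 * n ∧ n ≤ 1 ∧ ∀ k : ℕ, (n : ℝ) ^ β < (((F D)^[k] n : ℕ) : ℝ)} = ∅ := by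
        rw [Set.eq_empty_iff_forall_notMem]
        rintro n ⟨hn1, hn2, hn3⟩
        have hn : n = 1 := by omega
        have := hn3 0
        rw [hn] at this
        simp at this
      rw [hempty, Set.ncard_empty, Nat.cast_zero]
      positivity
  · intro m hB
    push Not at hB
    exact hB

end Pool.Agent.Results.MP_5317dd_nt.GoodApproximations
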