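import Pool.Agent.Results.MP_5317dd_nt.SharpPowerSaving
import Pool.Agent.Q229.RR.Dyadic
import Pool.Agent.Q319.DR.MultP

/-!
# Wiggin's maps `F_D`: all orbits starting near the multiples of almost every real number descend

For every `D ≥ 2`, `0 < β < 1` and `0 < θ < 1` there is `κ > 0` such that for all large `X` and all real
`y ∈ [X ^ (1 - θ), 2 X ^ (1 - θ)]` outside a set of measure at most `X ^ (1 - θ - κ)`, for all `k ≤ X ^ θ` but at most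
`X ^ (θ - κ)` the orbit under `F_D` of EVERY positive integer `m` with `|m - k y| ≤ X ^ κ` contains a number at most
`m ^ β`. For almost every `α ∈ [1, 2]`, all large `i` and all `k ≤ 2 ^ (θ i)` but at most `2 ^ ((θ - κ) i)` the same holds
for all `m` with `|m - k α 2 ^ ((1 - θ) i)| ≤ 2 ^ (κ i)`.

The windows contain about `X ^ (θ + κ)` integers up to `2 X`, while the count of the exceptional `m ≤ X` (starting file
`SharpPowerSaving`) is `X ^ (1 - β c + o(1))`, with `c` close to `0` for large `D`; it gives nothing for small `θ`.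
-/

set_option autoImplicit false

namespace Pool.Agent.Results.MP_5317dd_nt.StartsAtRealMultiples

open MeasureTheory Filter
open Pool.Agent.Q21.DW (PS)

/-- Wiggin's map `F_D`. -/
def F (D x : ℕ) : ℕ :=
  if x % D = 0 then x / D
  else if x % D = D - 1 then (D + 1) * x + 1
  else (D + 1) * x - x % D

open Classical in
/-- The number of the `k`, `1 ≤ k ≤ K`, for which some positive integer `m` with `|m - k y| ≤ R` has no iterate
`F_D^i (m) ≤ m ^ β`. -/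
noncomputable def exceptions (D : ℕ) (β K y R : ℝ) : ℕ :=
  ((Finset.Icc 1 ⌊K⌋₊).filter (fun k : ℕ =>
    ∃ m : ℕ, 1 ≤ m ∧ |(m : ℝ) - k * y| ≤ R ∧ ∀ i : ℕ, (m : ℝ) ^ β < (((F D)^[i] m : ℕ) : ℝ))).card

/-- the count of the starting points without descent, from `SharpPowerSaving` -/
lemma ps (D : ℕ) (hD : 2 ≤ D) : ∃ c : ℝ, 0 < c ∧ ∀ β : ℝ, 0 < β → β < 1 →
    PS (max (1 - β * c) 0) (fun m : ℕ => ∀ k : ℕ, (m : ℝ) ^ β < (((F D)^[k] m : ℕ) : ℝ)) := by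
  have hF : F = SharpPowerSaving.F := rfl
  obtain ⟨c, hc, -, C, hC, h⟩ := SharpPowerSaving.result D hD
  refine ⟨c, hc, fun β hβ hβ1 => ?_⟩
  have hβc : 0 < β * c := mul_pos hβ hc
  refine Pool.Agent.Q229.RR.ps_dyadic _ _ (le_max_right _ _) ?_
  intro ε hε
  refine ⟨C * 2 ^ (β * c), fun X hX => ?_⟩
  have hX1 : (1 : ℝ) ≤ X := by exact_mod_cast hX
  have hX0 : (0 : ℝ) < X := by linarith
  have hy : ∀ n : ℕ, X < 2 * n → (X / 2 : ℝ) ^ β ≤ (n : ℝ) ^ β := by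
    intro n hn
    refine Real.rpow_le_rpow (by positivity) ?_ hβ.le
    have : (X : ℝ) < 2 * n := by exact_mod_cast hn
    linarith
  -- the orbit stays above `(X / 2) ^ β`
  by_cases h1 : (1 : ℝ) ≤ (X / 2 : ℝ) ^ β
  · have hsub : {n : ℕ | X < 2 * n ∧ n ≤ X ∧ ∀ k : ℕ, (n : ℝ) ^ β < (((F D)^[k] n : ℕ) : ℝ)} ⊆
        {n : ℕ | 1 ≤ n ∧ (n : ℝ) ≤ X ∧ ∀ k : ℕ, (X / 2 : ℝ) ^ β < (((SharpPowerSaving.F D)^[k] n : ℕ) : ℝ)} := by
      rintro n ⟨hn1, hn2, hn3⟩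
      exact ⟨by omega, by exact_mod_cast hn2, fun k => lt_of_le_of_lt (hy n hn1) (hn3 k)⟩
    have hfin2 : {n : ℕ | 1 ≤ n ∧ (n : ℝ) ≤ X ∧
        ∀ k : ℕ, (X / 2 : ℝ) ^ β < (((SharpPowerSaving.F D)^[k] n : ℕ) : ℝ)}.Finite :=
      (Set.finite_le_nat X).subset fun n hn => by
        have := hn.2.1
        exact_mod_cast this
    have h2 := (Nat.cast_le (α := ℝ)).2 (Set.ncard_le_ncard hsub hfin2)
    refine h2.trans ((h X ((X / 2 : ℝ) ^ β) hX1 h1).trans ?_)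
    have h3 : C * X / ((X / 2 : ℝ) ^ β) ^ c = C * 2 ^ (β * c) * (X : ℝ) ^ (1 - β * c) := by
      rw [← Real.rpow_mul (by positivity), Real.div_rpow hX0.le (by norm_num), Real.rpow_sub hX0,
        Real.rpow_one]
      have h4 : (0 : ℝ) < (X : ℝ) ^ (β * c) := by positivity
      have h5 : (0 : ℝ) < (2 : ℝ) ^ (β * c) := by positivity
      field_simp
    rw [h3]
    refine mul_le_mul_of_nonneg_left (Real.rpow_le_rpow_of_exponent_le hX1 ?_) (by positivity)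
    linarith [le_max_left (1 - β * c) 0]
  · have hX2 : X < 2 := by
      by_contra hcon
      apply h1
      have : (2 : ℝ) ≤ X := by
        have : 2 ≤ X := by omega
        exact_mod_cast this
      exact Real.one_le_rpow (by linarith) hβ.le
    have hX1' : X = 1 := by omega
    subst hX1'
    have hempty : {n : ℕ | 1 < 2 * n ∧ n ≤ 1 ∧ ∀ k : ℕ, (n : ℝ) ^ β < (((F D)^[k] n : ℕ) : ℝ)} = ∅ := by
      rw [Set.eq_empty_iff_forall_notMem]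
      rintro n ⟨hn1, hn2, hn3⟩
      have hn : n = 1 := by omega
      have := hn3 0
      rw [hn] at this
      simp at this
    rw [hempty, Set.ncard_empty, Nat.cast_zero]
    positivity

/-- The scale-by-scale statement. -/
lemma scales (D : ℕ) (hD : 2 ≤ D) (β θ : ℝ) (hβ : 0 < β) (hβ1 : β < 1) (hθ : 0 < θ) (hθ1 : θ < 1) :
    ∃ κ : ℝ, 0 < κ ∧ ∃ X₀ : ℕ, ∀ X : ℕ, X₀ ≤ X →
      ∃ E : Set ℝ, MeasurableSet E ∧ volume E ≤ ENNReal.ofReal ((X : ℝ) ^ (1 - θ - κ)) ∧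
        ∀ y : ℝ, (X : ℝ) ^ (1 - θ) ≤ y → y ≤ 2 * (X : ℝ) ^ (1 - θ) → y ∉ E →
          (exceptions D β ((X : ℝ) ^ θ) y ((X : ℝ) ^ κ) : ℝ) ≤ (X : ℝ) ^ (θ - κ) := by
  classical
  obtain ⟨c, hc, hps⟩ := ps D hD
  obtain ⟨δ, hδ, hδs⟩ : ∃ δ : ℝ, 0 < δ ∧ max (1 - β * c) 0 < 1 - δ := by
    have hβc : 0 < β * c := mul_pos hβ hc
    refine ⟨min (β * c) 1 / 2, by positivity, ?_⟩
    have h1 := min_le_left (β * c) 1
    have h2 := min_le_right (β * c) 1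
    have h3 : 0 < min (β * c) 1 := lt_min hβc one_pos
    refine max_lt ?_ ?_ <;> linarith
  obtain ⟨C, hC⟩ := hps β hβ hβ1 (1 - δ) hδs
  obtain ⟨κ, hκ, h⟩ := Pool.Agent.Q319.DR.mult_fewP θ hθ hθ1 δ hδ
  obtain ⟨T, hT⟩ : ∃ T : Set ℕ, ∀ m, m ∈ T ↔ 1 ≤ m ∧ ∀ i : ℕ, (m : ℝ) ^ β < (((F D)^[i] m : ℕ) : ℝ) :=
    ⟨{m : ℕ | 1 ≤ m ∧ ∀ i : ℕ, (m : ℝ) ^ β < (((F D)^[i] m : ℕ) : ℝ)}, fun m => Iff.rfl⟩
  obtain ⟨X₀, hX⟩ := h |C| T (fun Y => by
    rcases Nat.eq_zero_or_pos Y with rfl | hY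
    · simp only [Finset.Ioc_self, Finset.filter_empty, Finset.card_empty, Nat.cast_zero]
      positivity
    refine le_trans (Nat.cast_le.2 (Finset.card_le_card fun m hm => ?_))
      ((hC Y hY).trans (mul_le_mul_of_nonneg_right (le_abs_self C) (by positivity)))
    have h1 := Finset.mem_filter.1 hm
    have h2 := Finset.mem_Ioc.1 h1.1
    exact Finset.mem_filter.2 ⟨Finset.mem_Icc.2 ⟨by omega, h2.2⟩, ((hT m).1 h1.2).2⟩)
  refine ⟨κ, hκ, X₀, fun X hXX => ?_⟩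
  obtain ⟨E, hE1, hE2, hE3⟩ := hX X hXX
  refine ⟨E, hE1, hE2, fun y hy1 hy2 hyE => le_trans ?_ (hE3 y hy1 hy2 hyE)⟩
  unfold exceptions
  refine Nat.cast_le.2 (Finset.card_le_card fun k hk => ?_)
  obtain ⟨h1, m, h2, h3, h4⟩ := Finset.mem_filter.1 hk
  exact Finset.mem_filter.2 ⟨h1, m, h3, (hT m).2 ⟨h2, h4⟩⟩

/-- From all scales to almost every number (Borel-Cantelli). -/
lemma ae_of_scales (θ κ : ℝ) (hκ : 0 < κ) (P : ℕ → ℝ → Prop)
    (h : ∃ X₀ : ℕ, ∀ X : ℕ, X₀ ≤ X →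
      ∃ E : Set ℝ, MeasurableSet E ∧ volume E ≤ ENNReal.ofReal ((X : ℝ) ^ (1 - θ - κ)) ∧
        ∀ y : ℝ, (X : ℝ) ^ (1 - θ) ≤ y → y ≤ 2 * (X : ℝ) ^ (1 - θ) → y ∉ E → P X y) :
    ∀ᵐ α : ℝ, 1 ≤ α → α ≤ 2 → ∀ᶠ i : ℕ in atTop, P (2 ^ i) (α * (2 : ℝ) ^ ((1 - θ) * i)) := by
  obtain ⟨X₀, h⟩ := h
  have hpow : ∀ i : ℕ, X₀ ≤ i → X₀ ≤ 2 ^ i := fun i hi => hi.trans Nat.lt_two_pow_self.le
  choose! E hE1 hE2 hE3 using h
  set s : ℕ → Set ℝ := fun i => if X₀ ≤ i then (fun α : ℝ => (2 : ℝ) ^ ((1 - θ) * i) * α) ⁻¹' (E (2 ^ i)) else ∅ with hs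
  have hpos : ∀ i : ℕ, (0 : ℝ) < (2 : ℝ) ^ ((1 - θ) * i) := fun i => Real.rpow_pos_of_pos (by norm_num) _
  have hcast : ∀ (i : ℕ) (a : ℝ), (((2 ^ i : ℕ) : ℝ)) ^ a = (2 : ℝ) ^ (a * i) := by
    intro i a
    push_cast
    rw [← Real.rpow_natCast, ← Real.rpow_mul (by norm_num), mul_comm]
  have hvol : ∀ i : ℕ, volume (s i) ≤ ENNReal.ofReal (((2 : ℝ) ^ (-κ)) ^ i) := by
    intro i
    by_cases hi : X₀ ≤ i
    · simp only [hs, hi, if_true]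
      rw [Real.volume_preimage_mul_left (hpos i).ne']
      refine (mul_le_mul_right (hE2 _ (hpow i hi)) _).trans ?_
      rw [← ENNReal.ofReal_mul (abs_nonneg _), abs_of_pos (inv_pos.2 (hpos i)), hcast, ← Real.rpow_neg (by norm_num),
        ← Real.rpow_add (by norm_num), ← Real.rpow_natCast, ← Real.rpow_mul (by norm_num)]
      refine ENNReal.ofReal_le_ofReal (le_of_eq ?_)
      congr 1
      ring
    · simp only [hs, hi, if_false, measure_empty]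
      exact bot_le
  have hr0 : (0 : ℝ) ≤ (2 : ℝ) ^ (-κ) := by positivity
  have hr1 : (2 : ℝ) ^ (-κ) < 1 := Real.rpow_lt_one_of_one_lt_of_neg (by norm_num) (by linarith)
  have hsum : ∑' i, volume (s i) ≠ ⊤ := by
    refine ne_top_of_le_ne_top ?_ (ENNReal.tsum_le_tsum hvol)
    rw [← ENNReal.ofReal_tsum_of_nonneg (fun i => pow_nonneg hr0 i) (summable_geometric_of_lt_one hr0 hr1)]
    exact ENNReal.ofReal_ne_top
  filter_upwards [ae_eventually_notMem hsum] with α hα h1 h2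
  filter_upwards [hα, eventually_ge_atTop X₀] with i hi hiX
  have hy : α * (2 : ℝ) ^ ((1 - θ) * i) ∉ E (2 ^ i) := by
    intro hcon
    apply hi
    simp only [hs, hiX, if_true]
    change (2 : ℝ) ^ ((1 - θ) * i) * α ∈ E (2 ^ i)
    rwa [mul_comm] at hcon
  have hp := (hpos i).le
  refine hE3 (2 ^ i) (hpow i hiX) _ ?_ ?_ hy
  · rw [hcast]
    nlinarith
  · rw [hcast]
    exact mul_le_mul_of_nonneg_right h2 hp

/-- **Theorem.** Let `D ≥ 2`, `0 < β < 1`, `0 < θ < 1`. There is `κ > 0` such that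
1. for all large `X` and all real `y ∈ [X ^ (1 - θ), 2 X ^ (1 - θ)]` outside a set of measure at most
   `X ^ (1 - θ - κ)`, for all `k ≤ X ^ θ` but at most `X ^ (θ - κ)` EVERY positive integer `m` with `|m - k y| ≤ X ^ κ` has
   an iterate `F_D^i (m) ≤ m ^ β`;
2. for almost every `α ∈ [1, 2]`, for all large `i`, for all `k ≤ 2 ^ (θ i)` but at most `2 ^ ((θ - κ) i)` EVERY positive
   integer `m` with `|m - k α 2 ^ ((1 - θ) i)| ≤ 2 ^ (κ i)` has an iterate `F_D^i (m) ≤ m ^ β`. -/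
theorem result (D : ℕ) (hD : 2 ≤ D) (β θ : ℝ) (hβ : 0 < β) (hβ1 : β < 1) (hθ : 0 < θ) (hθ1 : θ < 1) :
    ∃ κ : ℝ, 0 < κ ∧
      (∃ X₀ : ℕ, ∀ X : ℕ, X₀ ≤ X →
        ∃ E : Set ℝ, MeasurableSet E ∧ volume E ≤ ENNReal.ofReal ((X : ℝ) ^ (1 - θ - κ)) ∧
          ∀ y : ℝ, (X : ℝ) ^ (1 - θ) ≤ y → y ≤ 2 * (X : ℝ) ^ (1 - θ) → y ∉ E →
            (exceptions D β ((X : ℝ) ^ θ) y ((X : ℝ) ^ κ) : ℝ) ≤ (X : ℝ) ^ (θ - κ)) ∧
      ∀ᵐ α : ℝ, 1 ≤ α → α ≤ 2 → ∀ᶠ i : ℕ in atTop,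
        (exceptions D β ((2 : ℝ) ^ (θ * i)) (α * (2 : ℝ) ^ ((1 - θ) * i)) ((2 : ℝ) ^ (κ * i)) : ℝ) ≤
          (2 : ℝ) ^ ((θ - κ) * i) := by
  obtain ⟨κ, hκ, h⟩ := scales D hD β θ hβ hβ1 hθ hθ1
  refine ⟨κ, hκ, h, ?_⟩
  have hcast : ∀ (i : ℕ) (a : ℝ), (((2 ^ i : ℕ) : ℝ)) ^ a = (2 : ℝ) ^ (a * i) := by
    intro i a
    push_cast
    rw [← Real.rpow_natCast, ← Real.rpow_mul (by norm_num), mul_comm]
  filter_upwards [ae_of_scales θ κ hκ (fun X y =>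
    (exceptions D β ((X : ℝ) ^ θ) y ((X : ℝ) ^ κ) : ℝ) ≤ (X : ℝ) ^ (θ - κ)) h] with α hα h2 h3
  filter_upwards [hα h2 h3] with i hi
  simpa only [hcast] using hi

end Pool.Agent.Results.MP_5317dd_nt.StartsAtRealMultiples
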